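import Pool.Agent.Lib.MP_426fec_lc.Gen9

/-! A lower bound on the oblivious transfer capacity of every discrete memoryless channel. -/

open Pool.Agent.Lib.MP_426fec_lc

theorem Pool.Agent.Results.MP_426fec_lc.GeneralLower.result {X Y : Type} [Fintype X] [Fintype Y]
    (W : X → Y → ℝ) (hW0 : ∀ x y, 0 ≤ W x y) (hW1 : ∀ x, ∑ y, W x y = 1)
    (P : X → ℝ) (hP0 : ∀ x, 0 ≤ P x) (hP1 : ∑ x, P x = 1) :
    mi (fun ω : X × Y × Y => P ω.1 * W ω.1 ω.2.1 * W ω.1 ω.2.2) (fun ω => ω.1) (fun ω => ω.2.1) -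
      mi (fun ω : X × Y × Y => P ω.1 * W ω.1 ω.2.1 * W ω.1 ω.2.2) (fun ω => ω.2.1)
        (fun ω => ω.2.2) ≤ otCapacity W :=
  Gen.le_cap hW0 hW1 hP0 hP1
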