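import Pool.Agent.Lib.MP_426fec_lc.Ext3

/-! The largest oblivious transfer capacity of a channel with a given number of outputs. -/

open Pool.Agent.Lib.MP_426fec_lc

theorem Pool.Agent.Results.MP_426fec_lc.OutputExtremal.result {X : Type} {d : ℕ} (hd : 1 ≤ d)
    (W : X → Fin d → ℝ) (hW0 : ∀ x y, 0 ≤ W x y) (hW1 : ∀ x, ∑ y, W x y = 1) :
    otCapacity W ≤ Real.logb 2 (((d : ℝ) + 1) / 2) ∧
    ((∀ i j : Fin d, ∃ x, ∀ y,
        W x y = ((if y = i then 1 else 0) + (if y = j then 1 else 0)) / 2) →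
      otCapacity W = Real.logb 2 (((d : ℝ) + 1) / 2)) := by
  have : Nonempty (Fin d) := ⟨⟨0, hd⟩⟩
  have h1 := Ext.upper hW0 hW1
  rw [Fintype.card_fin] at h1
  refine ⟨h1, fun h => le_antisymm h1 ?_⟩
  have h2 := Ext.lower hW0 hW1 h
  rwa [Fintype.card_fin] at h2
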