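import Pool.Agent.Lib.MP_426fec_lc.Achieve4

set_option autoImplicit false

namespace Pool.Agent.Results.MP_426fec_lc.ZChannelLower

open Pool.Agent.Lib.MP_426fec_lc Finset

/-- The translation scheme with public discarding used for the lower bound. -/
noncomputable def sch (q u k0 k1 : ℝ) (hq : 0 ≤ q ∧ q ≤ 1) (hu : 0 ≤ u ∧ u ≤ 1)
    (h0 : 0 ≤ k0 ∧ k0 ≤ 1) (h1 : 0 ≤ k1 ∧ k1 ≤ 1) :
    Sch (Fin 2) (Fin 2) (Fin 3) (Fin 2 × Fin 2) (Fin 2) (ZMod 2) where
  pA := ![1 - q, q * u, q * (1 - u)]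
  pR := fun r => ![k0, 1 - k0] r.1 * ![k1, 1 - k1] r.2
  hA0 := fun a => by
    fin_cases a
    · simpa using hq.2
    · simpa using mul_nonneg hq.1 hu.1
    · simpa using mul_nonneg hq.1 (sub_nonneg.2 hu.2)
  hA1 := by simp [Fin.sum_univ_three]; ring
  hR0 := fun r => mul_nonneg (by rcases r with ⟨a, b⟩; fin_cases a <;> simp [h0.1, h0.2])
    (by rcases r with ⟨a, b⟩; fin_cases b <;> simp [h1.1, h1.2])
  hR1 := by simp [Fintype.sum_prod_type, Fin.sum_univ_two]; ring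
  ι := ![0, 1, 1]
  e := fun a v => if v = 0 then ![0, 0, 1] a else 0
  v := fun _ o => if o.1 = 0 then o.2.1 else o.2.2
  l := fun _ o => if o.1 = 1 ∧ o.2.2 = 0 then 1 else 0
  x0 := 0

lemma wl {w c N D ρ : ℝ} (h : c ≠ 0 → N / D = ρ) (hw : c = 0 → w = 0) :
    w * Real.log (N / D) = w * Real.log ρ := by
  by_cases hc : c = 0
  · rw [hw hc, zero_mul, zero_mul]
  · rw [h hc]

theorem result (p q : ℝ) (hp0 : 0 < p) (hp1 : p < 1) (hq0 : 0 < q) (hq1 : q < 1) :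
    ((1 - q) * (min p (1 - p) / p) + 2 * q * min p (1 - p)) *
        (Real.binEntropy (q * min p (1 - p) /
          ((1 - q) * (min p (1 - p) / p) + 2 * q * min p (1 - p))) / Real.log 2) -
      2 * q * min p (1 - p) ≤
      otCapacity (![![1, 0], ![p, 1 - p]] : Fin 2 → Fin 2 → ℝ) := by
  have hs : 0 < 1 - p := by linarith
  have hq' : 0 < 1 - q := by linarith
  obtain ⟨m, hm⟩ : ∃ m, m = min p (1 - p) := ⟨_, rfl⟩
  rw [← hm]
  have hm0 : 0 < m := hm ▸ lt_min hp0 hs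
  obtain ⟨k0, hk0⟩ : ∃ k, k = m / p := ⟨_, rfl⟩
  obtain ⟨k1, hk1⟩ : ∃ k, k = m / (1 - p) := ⟨_, rfl⟩
  rw [← hk0]
  have k0p : 0 < k0 := hk0 ▸ div_pos hm0 hp0
  have k1p : 0 < k1 := hk1 ▸ div_pos hm0 hs
  have k01 : k0 ≤ 1 := hk0 ▸ (div_le_one hp0).2 (hm ▸ min_le_left _ _)
  have k11 : k1 ≤ 1 := hk1 ▸ (div_le_one hs).2 (hm ▸ min_le_right _ _)
  have e0 : p * k0 = m := by rw [hk0]; field_simp
  have e1 : (1 - p) * k1 = m := by rw [hk1]; field_simp
  have hA : 0 < (1 - q) * k0 := mul_pos hq' k0p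
  have hB : 0 < q * m := mul_pos hq0 hm0
  obtain ⟨τ, hτ⟩ : ∃ τ, τ = (1 - q) * k0 + 2 * q * m := ⟨_, rfl⟩
  rw [← hτ]
  have hτ0 : 0 < τ := by rw [hτ]; linarith
  obtain ⟨u, hu⟩ : ∃ u, u = q * m / τ := ⟨_, rfl⟩
  rw [← hu]
  have hu0 : 0 < u := hu ▸ div_pos hB hτ0
  have huτ : u * τ = q * m := by rw [hu]; field_simp
  have hu1 : u < 1 := by rw [hu, div_lt_one hτ0, hτ]; linarith
  have hW0 : ∀ x y, 0 ≤ (![![1, 0], ![p, 1 - p]] : Fin 2 → Fin 2 → ℝ) x y := by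
    intro x y; fin_cases x <;> fin_cases y <;> simp [hp0.le, hp1.le]
  have hW1 : ∀ x, ∑ y, (![![1, 0], ![p, 1 - p]] : Fin 2 → Fin 2 → ℝ) x y = 1 := by
    intro x; fin_cases x <;> simp [Fin.sum_univ_two]
  have hl2 := Real.log_pos one_lt_two
  have h11 : (1 : ZMod 2) + 1 = 0 := by decide
  have h01 : ∀ w : ZMod 2, w = 0 ∨ w = 1 := by decide
  have hz : ∀ f : ZMod 2 → ℝ, ∑ w, f w = f 0 + f 1 := fun f => Fin.sum_univ_two f
  have s0 : p * (k0 * k1) + p * (k0 * (1 - k1)) = m := by linear_combination e0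
  have s1 : (1 - p) * (k0 * k1) + (1 - p) * ((1 - k0) * k1) = m := by linear_combination e1
  refine (sch q u k0 k1 ⟨hq0.le, hq1.le⟩ ⟨hu0.le, hu1.le⟩ ⟨k0p.le, k01⟩ ⟨k1p.le, k11⟩).le_otCapacity
    _ hW0 hW1 ?_ fun z z' => ?_
  · funext a v w
    fin_cases a <;> fin_cases v <;> rcases h01 w with rfl | rfl <;>
      simp [Sch.mu, sch, sel, Fintype.sum_prod_type, Fin.sum_univ_two, h11, s0, s1]
  · have hE : (sch q u k0 k1 ⟨hq0.le, hq1.le⟩ ⟨hu0.le, hu1.le⟩ ⟨k0p.le, k01⟩ ⟨k1p.le, k11⟩).HE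
        (![![1, 0], ![p, 1 - p]] : Fin 2 → Fin 2 → ℝ) z = τ * Real.binEntropy u := by
      have hD : ∀ c, (1 - q) * (k0 * c) + q * u * (p * (k0 * c)) + q * (1 - u) * (p * (k0 * c)) =
          c * (τ - q * m) := fun c => by rw [hτ]; linear_combination (c * q) * e0
      have hD0 : τ - q * m ≠ 0 := by rw [hτ]; linarith
      have a1 : ∀ c, c ≠ 0 → ((1 - q) * (k0 * c) + q * u * (p * (k0 * c))) /
          ((1 - q) * (k0 * c) + q * u * (p * (k0 * c)) + q * (1 - u) * (p * (k0 * c))) = 1 - u := by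
        intro c hc
        rw [hD, div_eq_iff (mul_ne_zero hc hD0)]
        linear_combination (c * q * u) * e0 - c * hτ + c * huτ
      have a2 : ∀ c, c ≠ 0 → q * (1 - u) * (p * (k0 * c)) /
          ((1 - q) * (k0 * c) + q * u * (p * (k0 * c)) + q * (1 - u) * (p * (k0 * c))) = u := by
        intro c hc
        rw [hD, div_eq_iff (mul_ne_zero hc hD0)]
        linear_combination (c * q * (1 - u)) * e0 - c * huτ
      have a3 : ∀ c, c ≠ 0 → q * u * ((1 - p) * (c * k1)) /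
          (q * u * ((1 - p) * (c * k1)) + q * (1 - u) * ((1 - p) * (c * k1))) = u := by
        intro c hc
        field_simp
        ring
      have a4 : ∀ c, c ≠ 0 → q * (1 - u) * ((1 - p) * (c * k1)) /
          (q * u * ((1 - p) * (c * k1)) + q * (1 - u) * ((1 - p) * (c * k1))) = 1 - u := by
        intro c hc
        field_simp
        ring
      simp [Sch.HE, Sch.LE, Sch.pE, Sch.pO, Sch.P1, sch, Fintype.sum_prod_type, Fin.sum_univ_two,
        Fin.sum_univ_three]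
      rw [a1 k1 k1p.ne', a2 k1 k1p.ne', a3 k0 k0p.ne', a4 k0 k0p.ne',
        wl (w := (1 - q) * (k0 * (1 - k1))) (a1 (1 - k1)) (fun h => by rw [h]; ring),
        wl (w := q * u * (p * (k0 * (1 - k1)))) (a1 (1 - k1)) (fun h => by rw [h]; ring),
        wl (w := q * (1 - u) * (p * (k0 * (1 - k1)))) (a2 (1 - k1)) (fun h => by rw [h]; ring),
        wl (w := q * u * ((1 - p) * ((1 - k0) * k1))) (a3 (1 - k0)) (fun h => by rw [h]; ring),
        wl (w := q * (1 - u) * ((1 - p) * ((1 - k0) * k1))) (a4 (1 - k0))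
          (fun h => by rw [h]; ring),
        Real.binEntropy, Real.log_inv, Real.log_inv]
      linear_combination
        (-(q * u) * Real.log (1 - u) - q * (1 - u) * Real.log u) * e0 +
        (-(q * u) * Real.log u - q * (1 - u) * Real.log (1 - u)) * e1 +
        Real.log (1 - u) * hτ + (Real.log u - Real.log (1 - u)) * huτ
    have hW : (sch q u k0 k1 ⟨hq0.le, hq1.le⟩ ⟨hu0.le, hu1.le⟩ ⟨k0p.le, k01⟩ ⟨k1p.le, k11⟩).HW
        (![![1, 0], ![p, 1 - p]] : Fin 2 → Fin 2 → ℝ) z' = 2 * q * m * Real.log 2 := by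
      have hh : Real.log (m / (m + m)) = -Real.log 2 := by
        rw [← Real.log_inv]; congr 1; field_simp; ring
      cases z' <;>
      · simp [Sch.HW, Sch.LW, Sch.mu, Sch.P1, sch, sel, Fintype.sum_prod_type, Fin.sum_univ_two,
          Fin.sum_univ_three, hz, h11, s0, s1, hh]
        linear_combination (q * Real.log 2) * e0 + (q * Real.log 2) * e1
    rw [hE, hW, sub_mul, mul_assoc, div_mul_cancel₀ _ hl2.ne']

end Pool.Agent.Results.MP_426fec_lc.ZChannelLower
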